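import Mathlib

/-!
# Eternal gas flows in vacuum whose asymptotic shapes at `t → ±∞` differ
-/

set_option autoImplicit false

open Filter Topology Set MeasureTheory Metric
open scoped ContDiff RealInnerProductSpace

namespace Pool.Agent.Results.MP_f907ca_an.TwoShapes

/-- `ℝ^d`. -/
abbrev E (d : ℕ) := EuclideanSpace ℝ (Fin d)

/-- The `i`-th unit vector. -/
noncomputable def ev {d : ℕ} (i : Fin d) : E d := EuclideanSpace.single i 1

/-- The unit vector `-∇φ(x) / |∇φ(x)|`: the outer unit normal of `{φ > 0}` at a point `x` with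
`φ(x) = 0`, `∇φ(x) ≠ 0`. -/
noncomputable def outerNormal {d : ℕ} (φ : E d → ℝ) (x : E d) : E d :=
  -(‖gradient φ x‖⁻¹ • gradient φ x)

/-- A shock-free eternal flow in vacuum with physical singularity, for the pressure law
`p(ρ) = A ρ^γ` in `ℝ^d`, with smooth front. The gas occupies `Ω t` at time `t`. -/
structure EternalFlow (d : ℕ) (A γ : ℝ) (Ω : ℝ → Set (E d)) (ρ : ℝ → E d → ℝ)
    (u : ℝ → E d → E d) : Prop where
  isOpen : ∀ t, IsOpen (Ω t)
  nonempty : ∀ t, (Ω t).Nonempty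
  isBounded : ∀ t, Bornology.IsBounded (Ω t)
  /-- the density is positive in `Ω t` and vanishes outside -/
  pos : ∀ t, ∀ x ∈ Ω t, 0 < ρ t x
  vacuum : ∀ t, ∀ x, x ∉ Ω t → ρ t x = 0
  /-- finite total mass and energy -/
  mass : ∀ t, Integrable (ρ t)
  energy : ∀ t, Integrable fun x => 1 / 2 * ρ t x * ‖u t x‖ ^ 2 + A / (γ - 1) * ρ t x ^ γ
  /-- `(ρ, u)` is a classical solution of the isentropic Euler system in the space-time domain -/
  isOpen_domain : IsOpen {p : ℝ × E d | p.2 ∈ Ω p.1}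
  contDiffOn : ContDiffOn ℝ 1 (fun p : ℝ × E d => ρ p.1 p.2) {p : ℝ × E d | p.2 ∈ Ω p.1}
  continuity : ∀ t, ∀ x ∈ Ω t, deriv (fun s => ρ s x) t +
    ∑ i, fderiv ℝ (fun y => ρ t y * u t y i) x (ev i) = 0
  momentum : ∀ t, ∀ x ∈ Ω t, ∀ j, deriv (fun s => ρ s x * u s x j) t +
    ∑ i, fderiv ℝ (fun y => ρ t y * (u t y i * u t y j)) x (ev i) +
    fderiv ℝ (fun y => A * ρ t y ^ γ) x (ev j) = 0
  /-- the velocity is smooth across the front -/
  smooth_u : ContDiff ℝ ∞ fun p : ℝ × E d => u p.1 p.2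
  /-- `c² = γ A ρ^(γ-1)` is (locally) Lipschitz up to the front, and across it -/
  lipschitz : LocallyLipschitz fun p : ℝ × E d => γ * A * ρ p.1 p.2 ^ (γ - 1)
  /-- the front is the smooth hypersurface `{φ = 0}`, `∇φ ≠ 0`; it moves with the normal velocity
  `u · ν` (`∂ₜφ + u · ∇φ = 0` on `φ = 0`); the front acceleration
  `g = -(γ-1)⁻¹ ∂c²/∂ν` (one-sided derivative from inside, `ν` the outer unit normal) exists and is
  positive at every point of the front, and `∂ₜu + (u · ∇)u = g ν` there -/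
  front : ∃ φ : ℝ × E d → ℝ, ContDiff ℝ ∞ φ ∧ (∀ t, Ω t = {x | 0 < φ (t, x)}) ∧
    (∀ t, frontier (Ω t) = {x | φ (t, x) = 0}) ∧
    ∀ t x, φ (t, x) = 0 → gradient (fun y => φ (t, y)) x ≠ 0 ∧ fderiv ℝ φ (t, x) (1, u t x) = 0 ∧
      ∃ g : ℝ, 0 < g ∧
        HasDerivWithinAt (fun s : ℝ => γ * A *
          ρ t (x - s • outerNormal (fun y => φ (t, y)) x) ^ (γ - 1)) ((γ - 1) * g) (Ici 0) 0 ∧
        deriv (fun s => u s x) t + fderiv ℝ (u t) x (u t x) =
          g • outerNormal (fun y => φ (t, y)) x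

/-- The trace of a linear map. -/
noncomputable def tr {d : ℕ} (L : E d →L[ℝ] E d) : ℝ := ∑ i, L (ev i) i

lemma sum_coord {d : ℕ} (v : E d) : ∑ i, v i • (ev i : E d) = v := by
  ext j
  simp [ev, Finset.sum_apply, Pi.single_apply]

/-- The data of an affine flow `x = M(t) y`. -/
structure AffineData (d : ℕ) (γ δ : ℝ) (M M1 M2 W : ℝ → E d →L[ℝ] E d) (D : ℝ → ℝ) : Prop where
  hM : ∀ t, HasDerivAt M (M1 t) t
  hM1 : ∀ t, HasDerivAt M1 (M2 t) t
  sM1 : ContDiff ℝ ∞ M1
  sW : ContDiff ℝ ∞ W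
  sD : ContDiff ℝ ∞ D
  MW : ∀ t, M t * W t = 1
  WM : ∀ t, W t * M t = 1
  D_pos : ∀ t, 0 < D t
  hD : ∀ t, HasDerivAt D (D t * tr (M1 t * W t)) t
  mom : ∀ t, M2 t = (δ * D t ^ (1 - γ)) • ContinuousLinearMap.adjoint (W t)

section Affine

variable {d : ℕ} {A γ δ : ℝ} {M M1 M2 W : ℝ → E d →L[ℝ] E d} {D : ℝ → ℝ}

/-- The constant `K`. -/
noncomputable def KK (A γ δ : ℝ) : ℝ := δ * (γ - 1) / (2 * γ * A)

/-- The function `1 - |W x|²`. -/
noncomputable def phi (W : ℝ → E d →L[ℝ] E d) (p : ℝ × E d) : ℝ := 1 - ‖W p.1 p.2‖ ^ 2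

/-- The density of the affine flow. -/
noncomputable def rho (A γ δ : ℝ) (W : ℝ → E d →L[ℝ] E d) (D : ℝ → ℝ) (t : ℝ) (x : E d) : ℝ :=
  (D t)⁻¹ * (KK A γ δ * max 0 (phi W (t, x))) ^ (1 / (γ - 1))

/-- The velocity of the affine flow. -/
noncomputable def vel (M1 W : ℝ → E d →L[ℝ] E d) (t : ℝ) (x : E d) : E d := M1 t (W t x)

/-- The domain of the affine flow. -/
def Om (W : ℝ → E d →L[ℝ] E d) (t : ℝ) : Set (E d) := {x | 0 < phi W (t, x)}

lemma AffineData.hW (h : AffineData d γ δ M M1 M2 W D) (t : ℝ) :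
    HasDerivAt W (-(W t * M1 t * W t)) t := by
  have h1 : DifferentiableAt ℝ W t := (h.sW.differentiable (by simp)) t
  have h2 := h1.hasDerivAt.mul (h.hM t)
  have h3 : (fun s => W s * M s) = fun _ => 1 := funext h.WM
  rw [show (W * M) = fun s => W s * M s from rfl, h3] at h2
  have h4 := h2.unique (hasDerivAt_const t (1 : E d →L[ℝ] E d))
  have h5 : deriv W t = -(W t * M1 t * W t) := by
    have h6 : (deriv W t * M t + W t * M1 t) * W t = 0 := by rw [h4, zero_mul]
    rw [add_mul, mul_assoc, h.MW, mul_one] at h6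
    exact eq_neg_of_add_eq_zero_left h6
  rw [← h5]
  exact h1.hasDerivAt

lemma smooth_apply {N : ℝ → E d →L[ℝ] E d} (hN : ContDiff ℝ ∞ N) :
    ContDiff ℝ ∞ fun p : ℝ × E d => N p.1 p.2 :=
  (hN.comp contDiff_fst).clm_apply contDiff_snd

lemma AffineData.smooth_phi (h : AffineData d γ δ M M1 M2 W D) : ContDiff ℝ ∞ (phi W) := by
  unfold phi
  exact contDiff_const.sub ((smooth_apply h.sW).norm_sq ℝ)

lemma AffineData.smooth_vel (h : AffineData d γ δ M M1 M2 W D) :
    ContDiff ℝ ∞ fun p : ℝ × E d => vel M1 W p.1 p.2 := by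
  unfold vel
  exact (h.sM1.comp contDiff_fst).clm_apply (smooth_apply h.sW)

lemma phi_hasFDerivAt (t : ℝ) (x : E d) :
    HasFDerivAt (fun y => phi W (t, y))
      (-(2 • (innerSL ℝ (W t x)).comp (W t))) x := by
  unfold phi
  have h1 : HasFDerivAt (fun y => W t y) (W t) x := (W t).hasFDerivAt
  exact (h1.norm_sq).const_sub 1

lemma AffineData.phi_hasDerivAt (h : AffineData d γ δ M M1 M2 W D) (t : ℝ) (x : E d) :
    HasDerivAt (fun s => phi W (s, x)) (2 * ⟪W t x, W t (vel M1 W t x)⟫) t := by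
  unfold phi
  have h1 : HasDerivAt (fun s => W s x) ((-(W t * M1 t * W t)) x) t := by
    simpa using (h.hW t).clm_apply (hasDerivAt_const t x)
  have h2 := (h1.norm_sq).const_sub 1
  refine h2.congr_deriv ?_
  simp [vel, inner_neg_right]

lemma AffineData.vel_hasDerivAt (h : AffineData d γ δ M M1 M2 W D) (t : ℝ) (x : E d) :
    HasDerivAt (fun s => vel M1 W s x) (M2 t (W t x) - M1 t (W t (vel M1 W t x))) t := by
  unfold vel
  have h1 : HasDerivAt (fun s => W s x) ((-(W t * M1 t * W t)) x) t := by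
    simpa using (h.hW t).clm_apply (hasDerivAt_const t x)
  have h2 := (h.hM1 t).clm_apply h1
  refine h2.congr_deriv ?_
  simp [sub_eq_add_neg]

lemma vel_hasFDerivAt (t : ℝ) (x : E d) :
    HasFDerivAt (vel M1 W t) (M1 t * W t) x := by
  have : vel M1 W t = ⇑(M1 t * W t) := by
    funext y; simp [vel]
  rw [this]
  exact (M1 t * W t).hasFDerivAt

lemma coord_hasFDerivAt {f : E d → E d} {f' : E d →L[ℝ] E d} {x : E d} (h : HasFDerivAt f f' x)
    (i : Fin d) : HasFDerivAt (fun y => f y i) ((EuclideanSpace.proj i : E d →L[ℝ] ℝ).comp f') x :=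
  (EuclideanSpace.proj i : E d →L[ℝ] ℝ).hasFDerivAt.comp x h

lemma coord_hasDerivAt {f : ℝ → E d} {f' : E d} {t : ℝ} (h : HasDerivAt f f' t)
    (i : Fin d) : HasDerivAt (fun y => f y i) (f' i) t :=
  (EuclideanSpace.proj i : E d →L[ℝ] ℝ).hasFDerivAt.comp_hasDerivAt t h

/-- Divergence of `f v` for a scalar `f` and a vector field `v`. -/
lemma div_smul {f : E d → ℝ} {f' : E d →L[ℝ] ℝ} {v : E d → E d} {v' : E d →L[ℝ] E d} {x : E d}
    (hf : HasFDerivAt f f' x) (hv : HasFDerivAt v v' x) :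
    ∑ i, fderiv ℝ (fun y => f y * v y i) x (ev i) = f' (v x) + f x * tr v' := by
  have h1 : ∀ i, fderiv ℝ (fun y => f y * v y i) x (ev i) =
      f' (v x i • ev i) + f x * (v' (ev i) i) := by
    intro i
    have := hf.fun_mul (coord_hasFDerivAt hv i)
    rw [this.fderiv]
    simp
    ring
  rw [Finset.sum_congr rfl fun i _ => h1 i, Finset.sum_add_distrib, ← map_sum, sum_coord,
    ← Finset.mul_sum]
  rfl

end Affine

section PDE

variable {d : ℕ} {A γ δ : ℝ} {M M1 M2 W : ℝ → E d →L[ℝ] E d} {D : ℝ → ℝ}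

/-- A scalar function `R` solving the continuity equation with velocity `v`, and satisfying
`v_t + v · ∇v = a`, satisfies the momentum balance. -/
lemma momentum_form {R : ℝ → E d → ℝ} {R' : E d →L[ℝ] ℝ} {Rt : ℝ} {v : ℝ → E d → E d}
    {v' : E d →L[ℝ] E d} {vt : E d} {t : ℝ} {x : E d} (hR : HasFDerivAt (R t) R' x)
    (hRt : HasDerivAt (fun s => R s x) Rt t) (hv : HasFDerivAt (v t) v' x)
    (hvt : HasDerivAt (fun s => v s x) vt t)
    (hc : Rt + (R' (v t x) + R t x * tr v') = 0) (j : Fin d) :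
    deriv (fun s => R s x * v s x j) t +
      ∑ i, fderiv ℝ (fun y => R t y * (v t y i * v t y j)) x (ev i) =
    R t x * ((vt + v' (v t x)) j) := by
  have h1 : deriv (fun s => R s x * v s x j) t = Rt * v t x j + R t x * vt j :=
    (hRt.fun_mul (coord_hasDerivAt hvt j)).deriv
  have h2 : ∑ i, fderiv ℝ (fun y => R t y * (v t y i * v t y j)) x (ev i) =
      ∑ i, fderiv ℝ (fun y => (R t y * v t y j) * v t y i) x (ev i) := by
    refine Finset.sum_congr rfl fun i _ => ?_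
    congr 2
    funext y
    ring
  rw [h1, h2, div_smul (hR.fun_mul (coord_hasFDerivAt hv j)) hv]
  simp
  linear_combination (v t x j) * hc

end PDE

section Affine

variable {d : ℕ} {A γ δ : ℝ} {M M1 M2 W : ℝ → E d →L[ℝ] E d} {D : ℝ → ℝ}

lemma AffineData.cont_phi (h : AffineData d γ δ M M1 M2 W D) : Continuous (phi W) :=
  h.smooth_phi.continuous

lemma eventually_pos_x (h : AffineData d γ δ M M1 M2 W D) {t : ℝ} {x : E d}
    (hx : 0 < phi W (t, x)) : ∀ᶠ y in 𝓝 x, 0 < phi W (t, y) :=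
  (h.cont_phi.comp (Continuous.prodMk_right t)).continuousAt.eventually (lt_mem_nhds hx)

lemma eventually_pos_t (h : AffineData d γ δ M M1 M2 W D) {t : ℝ} {x : E d}
    (hx : 0 < phi W (t, x)) : ∀ᶠ s in 𝓝 t, 0 < phi W (s, x) :=
  (h.cont_phi.comp (Continuous.prodMk_left x)).continuousAt.eventually (lt_mem_nhds hx)

lemma rho_eq {t : ℝ} {x : E d} (hx : 0 < phi W (t, x)) :
    rho A γ δ W D t x = (D t)⁻¹ * (KK A γ δ * phi W (t, x)) ^ (1 / (γ - 1)) := by
  rw [rho, max_eq_right hx.le]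

lemma rho_hasFDerivAt (h : AffineData d γ δ M M1 M2 W D) (hK : 0 < KK A γ δ) {t : ℝ} {x : E d}
    (hx : 0 < phi W (t, x)) : HasFDerivAt (rho A γ δ W D t)
      (((D t)⁻¹ * (1 / (γ - 1) * (KK A γ δ * phi W (t, x)) ^ (1 / (γ - 1) - 1) * KK A γ δ)) •
        (-(2 • (innerSL ℝ (W t x)).comp (W t)) : E d →L[ℝ] ℝ)) x := by
  have h1 := (phi_hasFDerivAt (W := W) t x).const_mul (KK A γ δ)
  have h2 := (h1.rpow_const (p := 1 / (γ - 1)) (Or.inl (mul_pos hK hx).ne')).const_mul (D t)⁻¹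
  have h3 : rho A γ δ W D t =ᶠ[𝓝 x] fun y =>
      (D t)⁻¹ * (KK A γ δ * phi W (t, y)) ^ (1 / (γ - 1)) := by
    filter_upwards [eventually_pos_x h hx] with y hy using rho_eq hy
  refine (h2.congr_of_eventuallyEq h3).congr_fderiv ?_
  ext y
  simp
  ring

lemma rho_hasDerivAt (h : AffineData d γ δ M M1 M2 W D) (hK : 0 < KK A γ δ) {t : ℝ} {x : E d}
    (hx : 0 < phi W (t, x)) : HasDerivAt (fun s => rho A γ δ W D s x)
      (-(tr (M1 t * W t)) * rho A γ δ W D t x +
        ((D t)⁻¹ * (1 / (γ - 1) * (KK A γ δ * phi W (t, x)) ^ (1 / (γ - 1) - 1) * KK A γ δ)) *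
        (2 * ⟪W t x, W t (vel M1 W t x)⟫)) t := by
  have h1 := (h.phi_hasDerivAt t x).const_mul (KK A γ δ)
  have h2 := h1.rpow_const (p := 1 / (γ - 1)) (Or.inl (mul_pos hK hx).ne')
  have h3 := ((h.hD t).inv (h.D_pos t).ne').mul h2
  have h4 : (fun s => rho A γ δ W D s x) =ᶠ[𝓝 t] fun s =>
      (D s)⁻¹ * (KK A γ δ * phi W (s, x)) ^ (1 / (γ - 1)) := by
    filter_upwards [eventually_pos_t h hx] with s hs using rho_eq hs
  refine (h3.congr_of_eventuallyEq h4).congr_deriv ?_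
  rw [rho_eq hx]
  have hD := (h.D_pos t).ne'
  have e : -(D t * tr (M1 t * W t)) / D t ^ 2 = -(tr (M1 t * W t)) * (D t)⁻¹ := by
    field_simp
  simp only [Pi.inv_apply, e]
  ring

lemma cont_eq (t : ℝ) (x : E d) :
    (-(tr (M1 t * W t)) * rho A γ δ W D t x +
        ((D t)⁻¹ * (1 / (γ - 1) * (KK A γ δ * phi W (t, x)) ^ (1 / (γ - 1) - 1) * KK A γ δ)) *
        (2 * ⟪W t x, W t (vel M1 W t x)⟫)) +
      ((((D t)⁻¹ * (1 / (γ - 1) * (KK A γ δ * phi W (t, x)) ^ (1 / (γ - 1) - 1) * KK A γ δ)) •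
        (-(2 • (innerSL ℝ (W t x)).comp (W t)) : E d →L[ℝ] ℝ)) (vel M1 W t x) +
        rho A γ δ W D t x * tr (M1 t * W t)) = 0 := by
  simp
  ring

lemma continuity_eq (h : AffineData d γ δ M M1 M2 W D) (hK : 0 < KK A γ δ) {t : ℝ} {x : E d}
    (hx : 0 < phi W (t, x)) :
    deriv (fun s => rho A γ δ W D s x) t +
      ∑ i, fderiv ℝ (fun y => rho A γ δ W D t y * vel M1 W t y i) x (ev i) = 0 := by
  rw [div_smul (rho_hasFDerivAt h hK hx) (vel_hasFDerivAt t x), (rho_hasDerivAt h hK hx).deriv]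
  exact cont_eq t x

lemma inner_coord (v : E d) (j : Fin d) : ⟪v, (ev j : E d)⟫ = v j := by
  simp [ev, EuclideanSpace.inner_single_right]

lemma momentum_eq (h : AffineData d γ δ M M1 M2 W D) (hA : 0 < A) (hγ : 1 < γ) (hδ : 0 < δ)
    {t : ℝ} {x : E d} (hx : 0 < phi W (t, x)) (j : Fin d) :
    deriv (fun s => rho A γ δ W D s x * vel M1 W s x j) t +
      ∑ i, fderiv ℝ (fun y => rho A γ δ W D t y * (vel M1 W t y i * vel M1 W t y j)) x (ev i) +
      fderiv ℝ (fun y => A * rho A γ δ W D t y ^ γ) x (ev j) = 0 := by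
  have hγ1 : 0 < γ - 1 := by linarith
  have hγ0 : 0 < γ := by linarith
  have hK : 0 < KK A γ δ := by unfold KK; positivity
  rw [momentum_form (rho_hasFDerivAt h hK hx) (rho_hasDerivAt h hK hx) (vel_hasFDerivAt t x)
    (h.vel_hasDerivAt t x) (cont_eq t x) j]
  have hD := h.D_pos t
  have hρ : 0 < rho A γ δ W D t x := by
    rw [rho_eq hx]; positivity
  have hp := ((rho_hasFDerivAt h hK hx).rpow_const (p := γ) (Or.inl hρ.ne')).const_mul A
  rw [hp.fderiv]
  have e1 : (M2 t (W t x) - M1 t (W t (vel M1 W t x)) + (M1 t * W t) (vel M1 W t x)) =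
      (δ * D t ^ (1 - γ)) • (ContinuousLinearMap.adjoint (W t) (W t x)) := by
    rw [h.mom t]
    simp
  rw [e1]
  set w := KK A γ δ * phi W (t, x) with hw
  have hw0 : 0 < w := mul_pos hK hx
  have e2 : ((γ * rho A γ δ W D t x ^ (γ - 1)) : ℝ) = γ * ((D t) ^ (1 - γ) * w) := by
    rw [rho_eq hx, ← hw, Real.mul_rpow (by positivity) (by positivity), ← Real.rpow_mul hw0.le,
      one_div_mul_cancel hγ1.ne', Real.rpow_one, Real.inv_rpow hD.le, ← Real.rpow_neg hD.le,
      neg_sub]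
  have e3 : w * w ^ (1 / (γ - 1) - 1) = w ^ (1 / (γ - 1)) := by
    rw [Real.rpow_sub_one hw0.ne']
    field_simp
  have e4 : rho A γ δ W D t x = (D t)⁻¹ * w ^ (1 / (γ - 1)) := rho_eq hx
  have e5 : ⟪W t x, W t (ev j)⟫ = (ContinuousLinearMap.adjoint (W t) (W t x)) j := by
    rw [← inner_coord, ContinuousLinearMap.adjoint_inner_left]
  simp only [_root_.smul_apply, _root_.neg_apply,
    ContinuousLinearMap.comp_apply, innerSL_apply_apply, smul_eq_mul, PiLp.smul_apply, e2, e5,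
    nsmul_eq_mul, Nat.cast_ofNat]
  rw [e4, ← e3]
  have e6 : δ = 2 * γ * A * KK A γ δ / (γ - 1) := by
    unfold KK; field_simp
  generalize (ContinuousLinearMap.adjoint (W t) (W t x)) j = y
  generalize w ^ (1 / (γ - 1) - 1) = z
  generalize D t ^ (1 - γ) = v
  generalize KK A γ δ = k at e6 ⊢
  rw [e6]
  field_simp
  ring

end Affine

section Flow

variable {d : ℕ} {A γ δ : ℝ} {M M1 M2 W : ℝ → E d →L[ℝ] E d} {D : ℝ → ℝ}

lemma mem_Om {t : ℝ} {x : E d} : x ∈ Om W t ↔ ‖W t x‖ < 1 := by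
  simp only [Om, phi, Set.mem_ofPred_eq, sub_pos]
  exact sq_lt_one_iff₀ (norm_nonneg _)

lemma AffineData.M_W (h : AffineData d γ δ M M1 M2 W D) (t : ℝ) (x : E d) :
    M t (W t x) = x := by
  have := congrArg (fun L : E d →L[ℝ] E d => L x) (h.MW t)
  simpa using this

lemma AffineData.W_M (h : AffineData d γ δ M M1 M2 W D) (t : ℝ) (x : E d) :
    W t (M t x) = x := by
  have := congrArg (fun L : E d →L[ℝ] E d => L x) (h.WM t)
  simpa using this

lemma AffineData.bounded (h : AffineData d γ δ M M1 M2 W D) (t : ℝ) :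
    Om W t ⊆ closedBall 0 ‖M t‖ := by
  intro x hx
  rw [mem_Om] at hx
  rw [mem_closedBall_zero_iff]
  calc ‖x‖ = ‖M t (W t x)‖ := by rw [h.M_W]
    _ ≤ ‖M t‖ * ‖W t x‖ := (M t).le_opNorm _
    _ ≤ ‖M t‖ * 1 := by gcongr
    _ = ‖M t‖ := mul_one _

lemma AffineData.isOpen_domain (h : AffineData d γ δ M M1 M2 W D) :
    IsOpen {p : ℝ × E d | p.2 ∈ Om W p.1} := by
  have : {p : ℝ × E d | p.2 ∈ Om W p.1} = phi W ⁻¹' Ioi 0 := by
    ext p; simp [Om]
  rw [this]
  exact isOpen_Ioi.preimage h.cont_phi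

lemma AffineData.isOpen (h : AffineData d γ δ M M1 M2 W D) (t : ℝ) : IsOpen (Om W t) :=
  h.isOpen_domain.preimage (Continuous.prodMk_right t)

lemma AffineData.continuous_rho (h : AffineData d γ δ M M1 M2 W D) (hγ : 1 < γ) :
    Continuous fun p : ℝ × E d => rho A γ δ W D p.1 p.2 := by
  unfold rho
  have h1 : Continuous fun p : ℝ × E d => (D p.1)⁻¹ :=
    (h.sD.continuous.comp continuous_fst).inv₀ fun p => (h.D_pos p.1).ne'
  refine h1.mul (Continuous.rpow_const ?_ fun p => Or.inr ?_)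
  · exact continuous_const.mul (continuous_const.max h.cont_phi)
  · have : 0 < γ - 1 := by linarith
    positivity

lemma rho_eq_zero (hγ : 1 < γ) {t : ℝ} {x : E d} (hx : x ∉ Om W t) :
    rho A γ δ W D t x = 0 := by
  have h1 : phi W (t, x) ≤ 0 := by simpa [Om] using hx
  have : 0 < γ - 1 := by linarith
  rw [rho, max_eq_left h1, mul_zero, Real.zero_rpow (by positivity), mul_zero]

lemma AffineData.rho_pos (h : AffineData d γ δ M M1 M2 W D) (hK : 0 < KK A γ δ) {t : ℝ} {x : E d}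
    (hx : x ∈ Om W t) : 0 < rho A γ δ W D t x := by
  have hx' : 0 < phi W (t, x) := hx
  rw [rho_eq hx']
  have := h.D_pos t
  positivity

lemma AffineData.rho_nonneg (h : AffineData d γ δ M M1 M2 W D) (hK : 0 < KK A γ δ) (t : ℝ)
    (x : E d) : 0 ≤ rho A γ δ W D t x := by
  unfold rho
  have := h.D_pos t
  have h2 : 0 ≤ max 0 (phi W (t, x)) := le_max_left _ _
  positivity

lemma AffineData.integrable_of (h : AffineData d γ δ M M1 M2 W D) {t : ℝ} {f : E d → ℝ}
    (hf : Continuous f) (h0 : ∀ x, x ∉ Om W t → f x = 0) : Integrable f := by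
  refine hf.integrable_of_hasCompactSupport ?_
  refine HasCompactSupport.intro (isCompact_closedBall 0 ‖M t‖) fun x hx => h0 x fun hx' => ?_
  exact hx (h.bounded t hx')

/-- The squared sound speed. -/
lemma AffineData.sound (h : AffineData d γ δ M M1 M2 W D) (hγ : 1 < γ) (hK : 0 < KK A γ δ)
    (t : ℝ) (x : E d) : γ * A * rho A γ δ W D t x ^ (γ - 1) =
      (γ * A * KK A γ δ * D t ^ (1 - γ)) * max 0 (phi W (t, x)) := by
  have hγ1 : 0 < γ - 1 := by linarith
  have hD := h.D_pos t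
  have h2 : 0 ≤ max 0 (phi W (t, x)) := le_max_left _ _
  have h3 : 0 ≤ KK A γ δ * max 0 (phi W (t, x)) := by positivity
  rw [rho, Real.mul_rpow (by positivity) (by positivity), ← Real.rpow_mul h3,
    one_div_mul_cancel hγ1.ne', Real.rpow_one, Real.inv_rpow hD.le, ← Real.rpow_neg hD.le,
    neg_sub]
  ring

lemma AffineData.adj_pos (h : AffineData d γ δ M M1 M2 W D) {t : ℝ} {x : E d}
    (hx : phi W (t, x) = 0) : 0 < ‖ContinuousLinearMap.adjoint (W t) (W t x)‖ := by
  rw [norm_pos_iff]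
  intro h0
  have h1 : ⟪ContinuousLinearMap.adjoint (W t) (W t x), M t (W t x)⟫ = 0 := by
    rw [h0, inner_zero_left]
  rw [ContinuousLinearMap.adjoint_inner_left, h.W_M, real_inner_self_eq_norm_sq] at h1
  rw [phi, h1] at hx
  norm_num at hx

lemma gradient_phi (t : ℝ) (x : E d) : gradient (fun y => phi W (t, y)) x =
    (-2 : ℝ) • ContinuousLinearMap.adjoint (W t) (W t x) := by
  apply HasGradientAt.gradient
  rw [hasGradientAt_iff_hasFDerivAt]
  refine (phi_hasFDerivAt t x).congr_fderiv ?_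
  ext y
  simp [ContinuousLinearMap.adjoint_inner_left]

lemma AffineData.normal (h : AffineData d γ δ M M1 M2 W D) {t : ℝ} {x : E d}
    (hx : phi W (t, x) = 0) : outerNormal (fun y => phi W (t, y)) x =
      (‖ContinuousLinearMap.adjoint (W t) (W t x)‖⁻¹) •
        ContinuousLinearMap.adjoint (W t) (W t x) := by
  have h0 := h.adj_pos hx
  rw [outerNormal, gradient_phi, norm_smul, smul_smul, ← neg_smul]
  congr 1
  norm_num
  field_simp

lemma AffineData.frontier_eq (h : AffineData d γ δ M M1 M2 W D) (t : ℝ) :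
    frontier (Om W t) = {x | phi W (t, x) = 0} := by
  have hc : Continuous fun x => phi W (t, x) := h.cont_phi.comp (Continuous.prodMk_right t)
  apply Subset.antisymm
  · intro x hx
    have := frontier_lt_subset_eq continuous_const hc hx
    simpa [eq_comm] using this
  · intro x hx
    have hx' : phi W (t, x) = 0 := hx
    have hn : x ∉ Om W t := by simp [Om, hx']
    rw [(h.isOpen t).frontier_eq]
    refine ⟨?_, hn⟩
    have h1 : Tendsto (fun s : ℝ => s • x) (𝓝[<] 1) (𝓝 x) := by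
      have : Tendsto (fun s : ℝ => s • x) (𝓝 1) (𝓝 ((1 : ℝ) • x)) :=
        (continuous_id.smul continuous_const).tendsto 1
      rw [one_smul] at this
      exact this.mono_left nhdsWithin_le_nhds
    refine mem_closure_of_tendsto h1 ?_
    have h2 : ∀ᶠ s : ℝ in 𝓝[<] 1, 0 < s :=
      nhdsWithin_le_nhds (lt_mem_nhds zero_lt_one)
    filter_upwards [h2, self_mem_nhdsWithin] with s hs1 hs2
    rw [mem_Om, map_smul, norm_smul, Real.norm_eq_abs, abs_of_pos hs1]
    have h3 : ‖W t x‖ = 1 := by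
      rw [phi, sub_eq_zero] at hx'
      exact (pow_eq_one_iff_of_nonneg (norm_nonneg _) two_ne_zero).1 hx'.symm
    rw [h3, mul_one]
    exact hs2

lemma AffineData.transport (h : AffineData d γ δ M M1 M2 W D) (t : ℝ) (x : E d) :
    fderiv ℝ (phi W) (t, x) (1, vel M1 W t x) = 0 := by
  have hd : HasFDerivAt (phi W) (fderiv ℝ (phi W) (t, x)) (t, x) :=
    (h.smooth_phi.differentiable (by simp) (t, x)).hasFDerivAt
  have h1 : fderiv ℝ (phi W) (t, x) (1, 0) = 2 * ⟪W t x, W t (vel M1 W t x)⟫ := by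
    have hc : HasDerivAt (fun s : ℝ => (s, x)) ((1 : ℝ), (0 : E d)) t :=
      (hasDerivAt_id t).prodMk (hasDerivAt_const t x)
    have h3 : HasDerivAt (fun s : ℝ => phi W (s, x)) (fderiv ℝ (phi W) (t, x) (1, 0)) t :=
      HasFDerivAt.comp_hasDerivAt (f := fun s : ℝ => (s, x)) t hd hc
    exact h3.unique (h.phi_hasDerivAt t x)
  have h2 : fderiv ℝ (phi W) (t, x) (0, vel M1 W t x) =
      -(2 * ⟪W t x, W t (vel M1 W t x)⟫) := by
    have hc : HasFDerivAt (fun y : E d => (t, y))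
        ((0 : E d →L[ℝ] ℝ).prod (ContinuousLinearMap.id ℝ (E d))) x :=
      (hasFDerivAt_const t x).prodMk (hasFDerivAt_id x)
    have h3 := (hd.comp x hc).unique (phi_hasFDerivAt t x)
    have h4 := congrArg (fun L : E d →L[ℝ] ℝ => L (vel M1 W t x)) h3
    simpa using h4
  have h5 : ((1 : ℝ), vel M1 W t x) = (1, 0) + (0, vel M1 W t x) := by simp
  rw [h5, map_add, h1, h2]
  ring

lemma AffineData.accel (h : AffineData d γ δ M M1 M2 W D) (hγ : 1 < γ) (hA : 0 < A) (hδ : 0 < δ)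
    {t : ℝ} {x : E d} (hx : phi W (t, x) = 0) :
    ∃ g : ℝ, 0 < g ∧
      HasDerivWithinAt (fun s : ℝ => γ * A * rho A γ δ W D t
        (x - s • outerNormal (fun y => phi W (t, y)) x) ^ (γ - 1)) ((γ - 1) * g) (Ici 0) 0 ∧
      deriv (fun s => vel M1 W s x) t + fderiv ℝ (vel M1 W t) x (vel M1 W t x) =
        g • outerNormal (fun y => phi W (t, y)) x := by
  have hγ1 : 0 < γ - 1 := by linarith
  have hγ0 : 0 < γ := by linarith
  have hK : 0 < KK A γ δ := by unfold KK; positivity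
  have hD := h.D_pos t
  set a := ContinuousLinearMap.adjoint (W t) (W t x) with ha
  have ha0 : 0 < ‖a‖ := h.adj_pos hx
  set ν := outerNormal (fun y => phi W (t, y)) x with hν
  have hνa : ν = ‖a‖⁻¹ • a := h.normal hx
  refine ⟨δ * D t ^ (1 - γ) * ‖a‖, by positivity, ?_, ?_⟩
  · have h1 : ∀ s : ℝ, phi W (t, x - s • ν) = s * (2 * ‖a‖ - s * ‖W t ν‖ ^ 2) := by
      intro s
      have h2 : ⟪W t x, W t ν⟫ = ‖a‖ := by
        rw [← ContinuousLinearMap.adjoint_inner_left, ← ha, hνa, inner_smul_right,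
          real_inner_self_eq_norm_sq]
        field_simp
      rw [phi, sub_eq_zero] at hx
      simp only at hx
      rw [phi]
      simp only [map_sub, map_smul]
      rw [norm_sub_sq_real, ← hx, inner_smul_right, h2, norm_smul, mul_pow, Real.norm_eq_abs,
        sq_abs]
      ring
    have h3 : HasDerivAt (fun s : ℝ => (γ * A * KK A γ δ * D t ^ (1 - γ)) *
        (s * (2 * ‖a‖ - s * ‖W t ν‖ ^ 2))) ((γ - 1) * (δ * D t ^ (1 - γ) * ‖a‖)) 0 := by
      have h4 := ((hasDerivAt_id (0 : ℝ)).fun_mul (((hasDerivAt_id (0 : ℝ)).mul_const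
        (‖W t ν‖ ^ 2)).const_sub (2 * ‖a‖))).const_mul (γ * A * KK A γ δ * D t ^ (1 - γ))
      refine h4.congr_deriv ?_
      simp only [id_eq, KK]
      field_simp
      ring
    refine h3.hasDerivWithinAt.congr_of_eventuallyEq ?_ ?_
    · have h5 : ∀ᶠ s : ℝ in 𝓝[≥] 0, 0 < 2 * ‖a‖ - s * ‖W t ν‖ ^ 2 := by
        have hc : Continuous fun s : ℝ => 2 * ‖a‖ - s * ‖W t ν‖ ^ 2 := by fun_prop
        have : ∀ᶠ s : ℝ in 𝓝 0, 0 < 2 * ‖a‖ - s * ‖W t ν‖ ^ 2 :=
          hc.continuousAt.eventually (lt_mem_nhds (by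
            beta_reduce; rw [zero_mul, sub_zero]; positivity))
        exact nhdsWithin_le_nhds this
      filter_upwards [h5, self_mem_nhdsWithin] with s hs1 hs2
      have hs2' : 0 ≤ s := hs2
      rw [h.sound hγ hK, h1, max_eq_right (by positivity)]
    · rw [h.sound hγ hK, h1]
      simp
  · rw [(h.vel_hasDerivAt t x).deriv, (vel_hasFDerivAt t x).fderiv, h.mom t, hνa, smul_smul]
    have : δ * D t ^ (1 - γ) * ‖a‖ * ‖a‖⁻¹ = δ * D t ^ (1 - γ) :=
      mul_inv_cancel_right₀ ha0.ne' _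
    rw [this]
    simp [← ha]

/-- Affine data give an eternal flow with physical singularity. -/
theorem AffineData.eternalFlow (h : AffineData d γ δ M M1 M2 W D) (hγ : 1 < γ) (hA : 0 < A)
    (hδ : 0 < δ) : EternalFlow d A γ (Om W) (rho A γ δ W D) (vel M1 W) := by
  have hγ1 : 0 < γ - 1 := by linarith
  have hγ0 : 0 < γ := by linarith
  have hK : 0 < KK A γ δ := by unfold KK; positivity
  have hcx : ∀ t, Continuous (rho A γ δ W D t) := fun t =>
    (h.continuous_rho hγ).comp (Continuous.prodMk_right t)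
  have hcv : ∀ t, Continuous (vel M1 W t) := fun t => by
    unfold vel
    fun_prop
  exact
  { isOpen := h.isOpen
    nonempty := fun t => ⟨0, by rw [mem_Om]; simp⟩
    isBounded := fun t => isBounded_closedBall.subset (h.bounded t)
    pos := fun t x hx => h.rho_pos hK hx
    vacuum := fun t x hx => rho_eq_zero hγ hx
    mass := fun t => h.integrable_of (hcx t) fun x hx => rho_eq_zero hγ hx
    energy := fun t => by
      refine h.integrable_of (t := t) ?_ fun x hx => ?_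
      · refine ((continuous_const.mul (hcx t)).mul ((hcv t).norm.pow 2)).add
          (continuous_const.mul ((hcx t).rpow_const fun x => Or.inr hγ0.le))
      · rw [rho_eq_zero hγ hx, Real.zero_rpow hγ0.ne']
        simp
    isOpen_domain := h.isOpen_domain
    contDiffOn := by
      have h1 : ContDiffOn ℝ 1 (fun p : ℝ × E d => (D p.1)⁻¹ *
          (KK A γ δ * phi W p) ^ (1 / (γ - 1))) {p : ℝ × E d | p.2 ∈ Om W p.1} := by
        refine ContDiffOn.mul ?_ (ContDiffOn.rpow_const_of_ne ?_ ?_)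
        · exact (((h.sD.comp contDiff_fst).inv fun p => (h.D_pos p.1).ne').of_le
            (by simp)).contDiffOn
        · exact ((contDiff_const.mul h.smooth_phi).of_le (by simp)).contDiffOn
        · intro p hp
          have : 0 < phi W p := hp
          positivity
      refine h1.congr fun p hp => ?_
      exact rho_eq hp
    continuity := fun t x hx => continuity_eq h hK hx
    momentum := fun t x hx j => momentum_eq h hA hγ hδ hx j
    smooth_u := h.smooth_vel
    lipschitz := by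
      have h1 : (fun p : ℝ × E d => γ * A * rho A γ δ W D p.1 p.2 ^ (γ - 1)) = fun p =>
          max 0 ((γ * A * KK A γ δ * D p.1 ^ (1 - γ)) * phi W p) := by
        funext p
        rw [h.sound hγ hK, mul_max_of_nonneg]
        · simp
        · have := h.D_pos p.1
          positivity
      rw [h1]
      refine LocallyLipschitz.const_max ?_ 0
      have h2 : ContDiff ℝ 1 fun p : ℝ × E d =>
          (γ * A * KK A γ δ * D p.1 ^ (1 - γ)) * phi W p := by
        refine ContDiff.mul (contDiff_const.mul ?_) (h.smooth_phi.of_le (by simp))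
        exact ContDiff.rpow_const_of_ne ((h.sD.comp contDiff_fst).of_le (by simp))
          fun p => (h.D_pos p.1).ne'
      exact h2.locallyLipschitz
    front := by
      refine ⟨phi W, h.smooth_phi, fun t => rfl, h.frontier_eq, fun t x hx => ⟨?_, ?_, ?_⟩⟩
      · rw [gradient_phi]
        have := h.adj_pos hx
        rw [norm_pos_iff] at this
        exact smul_ne_zero (by norm_num) this
      · exact h.transport t x
      · exact h.accel hγ hA hδ hx }

end Flow

/-! ### Hausdorff limits of linear images of the ball -/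

section Hausdorff

variable {d : ℕ}

lemma hausdorff_image_le (L₁ L₂ : E d →L[ℝ] E d) :
    hausdorffEDist (L₁ '' ball 0 1) (L₂ '' ball 0 1) ≤ ENNReal.ofReal ‖L₁ - L₂‖ := by
  have key : ∀ (y : E d), y ∈ ball (0 : E d) 1 → edist (L₁ y) (L₂ y) ≤ ENNReal.ofReal ‖L₁ - L₂‖ := by
    intro y hy
    rw [edist_dist, dist_eq_norm]
    apply ENNReal.ofReal_le_ofReal
    rw [mem_ball_zero_iff] at hy
    calc ‖L₁ y - L₂ y‖ = ‖(L₁ - L₂) y‖ := by simp
      _ ≤ ‖L₁ - L₂‖ * ‖y‖ := (L₁ - L₂).le_opNorm _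
      _ ≤ ‖L₁ - L₂‖ * 1 := by gcongr
      _ = ‖L₁ - L₂‖ := mul_one _
  refine hausdorffEDist_le_of_mem_edist ?_ ?_
  · rintro _ ⟨y, hy, rfl⟩
    exact ⟨L₂ y, mem_image_of_mem _ hy, key y hy⟩
  · rintro _ ⟨y, hy, rfl⟩
    exact ⟨L₁ y, mem_image_of_mem _ hy, by rw [edist_comm]; exact key y hy⟩

/-- `Ω(t)` behaves asymptotically as `t 𝒪` along the filter `l`. -/
def BehavesAs (Ω : ℝ → Set (E d)) (O : Set (E d)) (l : Filter ℝ) : Prop :=
  Tendsto (fun t : ℝ => hausdorffEDist (closure ((fun x : E d => t⁻¹ • x) '' Ω t)) (closure O)) l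
    (𝓝 0)

lemma behavesAs_of_tendsto {L : ℝ → E d →L[ℝ] E d} {L₀ : E d →L[ℝ] E d} {Ω : ℝ → Set (E d)}
    {l : Filter ℝ} (h : Tendsto L l (𝓝 L₀))
    (hΩ : ∀ᶠ t in l, (fun x : E d => t⁻¹ • x) '' Ω t = L t '' ball 0 1) :
    BehavesAs Ω (L₀ '' ball 0 1) l := by
  unfold BehavesAs
  have h1 : Tendsto (fun t => ENNReal.ofReal ‖L t - L₀‖) l (𝓝 0) := by
    have h2 : Tendsto (fun t => ‖L t - L₀‖) l (𝓝 0) := by
      have := (h.sub_const L₀).norm
      simpa using this
    have := ENNReal.tendsto_ofReal h2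
    simpa using this
  refine tendsto_of_tendsto_of_tendsto_of_le_of_le' tendsto_const_nhds h1
    (Eventually.of_forall fun t => zero_le) ?_
  filter_upwards [hΩ] with t ht
  rw [hausdorffEDist_closure, ht]
  exact hausdorff_image_le _ _

lemma BehavesAs.unique {Ω : ℝ → Set (E d)} {O O' : Set (E d)} {l : Filter ℝ} [l.NeBot]
    (h : BehavesAs Ω O l) (h' : BehavesAs Ω O' l) : closure O = closure O' := by
  unfold BehavesAs at h h'
  have h1 : Tendsto (fun t : ℝ =>
      hausdorffEDist (closure O) (closure ((fun x : E d => t⁻¹ • x) '' Ω t)) +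
      hausdorffEDist (closure ((fun x : E d => t⁻¹ • x) '' Ω t)) (closure O')) l (𝓝 (0 + 0)) := by
    refine Tendsto.add ?_ h'
    simpa [hausdorffEDist_comm] using h
  have h2 : hausdorffEDist (closure O) (closure O') ≤ 0 := by
    rw [add_zero] at h1
    exact ge_of_tendsto h1 (Eventually.of_forall fun t => hausdorffEDist_triangle)
  have h3 : hausdorffEDist (closure O) (closure O') = 0 := le_antisymm h2 zero_le
  rw [hausdorffEDist_zero_iff_closure_eq_closure] at h3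
  simpa using h3

lemma adjoint_norm_le {L₁ L₂ : E d →L[ℝ] E d}
    (h : closure (L₁ '' ball 0 1) ⊆ closure (L₂ '' ball 0 1)) (w : E d) :
    ‖ContinuousLinearMap.adjoint L₁ w‖ ≤ ‖ContinuousLinearMap.adjoint L₂ w‖ := by
  set a := ContinuousLinearMap.adjoint L₁ w with ha
  rcases eq_or_ne a 0 with h0 | h0
  · rw [h0, norm_zero]; exact norm_nonneg _
  have ha0 : 0 < ‖a‖ := norm_pos_iff.2 h0
  have h1 : ∀ z ∈ closure (L₂ '' ball 0 1), ⟪w, z⟫ ≤ ‖ContinuousLinearMap.adjoint L₂ w‖ := by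
    have hcl : IsClosed {z : E d | ⟪w, z⟫ ≤ ‖ContinuousLinearMap.adjoint L₂ w‖} :=
      isClosed_le (by fun_prop) continuous_const
    have hsub : L₂ '' ball 0 1 ⊆ {z : E d | ⟪w, z⟫ ≤ ‖ContinuousLinearMap.adjoint L₂ w‖} := by
      rintro _ ⟨y, hy, rfl⟩
      rw [mem_ball_zero_iff] at hy
      simp only [Set.mem_ofPred_eq]
      rw [← ContinuousLinearMap.adjoint_inner_left]
      calc ⟪ContinuousLinearMap.adjoint L₂ w, y⟫ ≤ ‖ContinuousLinearMap.adjoint L₂ w‖ * ‖y‖ :=
            real_inner_le_norm _ _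
        _ ≤ ‖ContinuousLinearMap.adjoint L₂ w‖ * 1 := by gcongr
        _ = _ := mul_one _
    exact fun z hz => closure_minimal hsub hcl hz
  have h2 : ∀ s : ℝ, 0 ≤ s → s < 1 → s * ‖a‖ ≤ ‖ContinuousLinearMap.adjoint L₂ w‖ := by
    intro s hs0 hs1
    have hy : (s * ‖a‖⁻¹) • a ∈ ball (0 : E d) 1 := by
      rw [mem_ball_zero_iff, norm_smul, Real.norm_eq_abs, abs_of_nonneg (by positivity),
        inv_mul_cancel_right₀ ha0.ne']
      exact hs1
    have h3 := h1 _ (h (subset_closure (mem_image_of_mem L₁ hy)))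
    rw [← ContinuousLinearMap.adjoint_inner_left, ← ha, inner_smul_right,
      real_inner_self_eq_norm_sq] at h3
    have e : s * ‖a‖⁻¹ * ‖a‖ ^ 2 = s * ‖a‖ := by field_simp
    linarith
  have h3 : Tendsto (fun s : ℝ => s * ‖a‖) (𝓝[<] 1) (𝓝 (1 * ‖a‖)) :=
    (tendsto_nhdsWithin_of_tendsto_nhds tendsto_id).mul_const _
  rw [one_mul] at h3
  refine le_of_tendsto h3 ?_
  have h4 : ∀ᶠ s : ℝ in 𝓝[<] 1, 0 < s := nhdsWithin_le_nhds (lt_mem_nhds zero_lt_one)
  filter_upwards [h4, self_mem_nhdsWithin] with s hs1 hs2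
  exact h2 s hs1.le hs2

end Hausdorff

/-! ### The explicit flow -/

section Operators

variable {F : Type*} [NormedAddCommGroup F] [InnerProductSpace ℝ F]

/-- The rank one operator `x ↦ ⟪a, x⟫ b`. -/
noncomputable def RR (a b : F) : F →L[ℝ] F := (innerSL ℝ a).smulRight b

lemma RR_apply (a b x : F) : RR a b x = ⟪a, x⟫ • b := rfl

lemma RR_mul (a b c d : F) : RR a b * RR c d = ⟪a, d⟫ • RR c b := by
  ext x
  simp only [mul_apply_eq_comp, RR_apply, _root_.smul_apply, inner_smul_right, smul_smul]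
  rw [mul_comm]

/-- The operator `p + q Π + x C + y S`, where `Π` is the projection onto the span of `v₀, v₁`,
`C` and `S` are supported there and act by `C v₀ = v₀`, `C v₁ = -v₁`, `S v₀ = v₁`, `S v₁ = v₀`. -/
noncomputable def op (v₀ v₁ : F) (p q x y : ℝ) : F →L[ℝ] F :=
  p • 1 + q • (RR v₀ v₀ + RR v₁ v₁) + x • (RR v₀ v₀ - RR v₁ v₁) + y • (RR v₀ v₁ + RR v₁ v₀)

lemma op_mul {v₀ v₁ : F} (h00 : ⟪v₀, v₀⟫ = 1) (h11 : ⟪v₁, v₁⟫ = 1) (h01 : ⟪v₀, v₁⟫ = 0)
    (h10 : ⟪v₁, v₀⟫ = 0) (p q x y p' q' x' y' : ℝ) :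
    op v₀ v₁ p q x y * op v₀ v₁ p' q' x' y' =
    op v₀ v₁ (p * p') (p * q' + q * p' + q * q' + x * x' + y * y')
      (p * x' + x * p' + q * x' + x * q')
      (p * y' + y * p' + q * y' + y * q') + (y * x' - x * y') • (RR v₀ v₁ - RR v₁ v₀) := by
  simp only [op, add_mul, mul_add, sub_mul, mul_sub, smul_mul_smul_comm, mul_one, one_mul, RR_mul,
    h00, h11, h01, h10, one_smul, zero_smul]
  module

lemma smul_op (v₀ v₁ : F) (c p q x y : ℝ) :
    c • op v₀ v₁ p q x y = op v₀ v₁ (c * p) (c * q) (c * x) (c * y) := by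
  simp only [op, smul_add, smul_smul]

lemma hasDerivAt_op (v₀ v₁ : F) {p q x y : ℝ → ℝ} {p' q' x' y' t : ℝ} (hp : HasDerivAt p p' t)
    (hq : HasDerivAt q q' t) (hx : HasDerivAt x x' t) (hy : HasDerivAt y y' t) :
    HasDerivAt (fun t => op v₀ v₁ (p t) (q t) (x t) (y t)) (op v₀ v₁ p' q' x' y') t := by
  have h1 := hp.smul_const (1 : F →L[ℝ] F)
  have h2 := hq.smul_const (RR v₀ v₀ + RR v₁ v₁)
  have h3 := hx.smul_const (RR v₀ v₀ - RR v₁ v₁)
  have h4 := hy.smul_const (RR v₀ v₁ + RR v₁ v₀)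
  exact ((h1.fun_add h2).fun_add h3).fun_add h4

lemma contDiff_op (v₀ v₁ : F) {p q x y : ℝ → ℝ} (hp : ContDiff ℝ ∞ p)
    (hq : ContDiff ℝ ∞ q) (hx : ContDiff ℝ ∞ x) (hy : ContDiff ℝ ∞ y) :
    ContDiff ℝ ∞ (fun t => op v₀ v₁ (p t) (q t) (x t) (y t)) :=
  ((((hp.smul contDiff_const).add (hq.smul contDiff_const)).add (hx.smul contDiff_const)).add
    (hy.smul contDiff_const))

lemma tendsto_op (v₀ v₁ : F) {l : Filter ℝ} {p q x y : ℝ → ℝ} {p' q' x' y' : ℝ}
    (hp : Tendsto p l (𝓝 p')) (hq : Tendsto q l (𝓝 q')) (hx : Tendsto x l (𝓝 x'))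
    (hy : Tendsto y l (𝓝 y')) :
    Tendsto (fun t => op v₀ v₁ (p t) (q t) (x t) (y t)) l (𝓝 (op v₀ v₁ p' q' x' y')) :=
  ((((hp.smul_const _).add (hq.smul_const _)).add (hx.smul_const _)).add
    (hy.smul_const _))

lemma adjoint_RR [CompleteSpace F] (a b : F) :
    ContinuousLinearMap.adjoint (RR a b) = RR b a := by
  symm
  rw [ContinuousLinearMap.eq_adjoint_iff]
  intro x y
  simp only [RR_apply, inner_smul_left, inner_smul_right]
  rw [real_inner_comm b x]
  simp
  ring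

lemma adj_op [CompleteSpace F] (v₀ v₁ : F) (p q x y : ℝ) :
    ContinuousLinearMap.adjoint (op v₀ v₁ p q x y) = op v₀ v₁ p q x y := by
  have h1 : ContinuousLinearMap.adjoint (1 : F →L[ℝ] F) = 1 := by
    rw [← ContinuousLinearMap.star_eq_adjoint, star_one]
  simp only [op, map_add, map_sub, adjoint_RR, map_smulₛₗ, h1]
  simp only [conj_trivial]
  module

end Operators

section Explicit

lemma tr_add {d : ℕ} (L L' : E d →L[ℝ] E d) : tr (L + L') = tr L + tr L' := by
  simp [tr, Finset.sum_add_distrib]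

lemma tr_sub {d : ℕ} (L L' : E d →L[ℝ] E d) : tr (L - L') = tr L - tr L' := by
  simp [tr]

lemma tr_smul {d : ℕ} (c : ℝ) (L : E d →L[ℝ] E d) : tr (c • L) = c * tr L := by
  simp [tr, Finset.mul_sum]

lemma tr_one {d : ℕ} : tr (1 : E d →L[ℝ] E d) = d := by
  simp [tr, ev]

lemma tr_RR {d : ℕ} (i j : Fin d) : tr (RR (ev i) (ev j)) = if i = j then 1 else 0 := by
  simp only [tr, RR_apply, ev, PiLp.smul_apply, PiLp.single_apply, smul_eq_mul,
    EuclideanSpace.inner_single_left]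
  rw [Finset.sum_eq_single i]
  · simp
  · intro k _ hk
    rw [if_neg (Ne.symm hk)]
    simp
  · simp

lemma inner_ev {d : ℕ} (i j : Fin d) : ⟪(ev i : E d), ev j⟫ = if i = j then 1 else 0 := by
  simp [ev, EuclideanSpace.inner_single_left, PiLp.single_apply]

/-- The operator `op` for the first two unit vectors of `ℝ^(n+2)`. -/
noncomputable def opE (n : ℕ) (p q x y : ℝ) : E (n + 2) →L[ℝ] E (n + 2) := op (ev 0) (ev 1) p q x y

lemma tr_opE (n : ℕ) (p q x y : ℝ) : tr (opE n p q x y) = (n + 2) * p + 2 * q := by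
  rw [opE, op, tr_add, tr_add, tr_add, tr_smul, tr_smul, tr_smul, tr_smul, tr_one, tr_add, tr_sub,
    tr_add, tr_RR, tr_RR, tr_RR, tr_RR]
  push_cast
  simp
  ring

lemma tr_skew (n : ℕ) : tr (RR (ev 0 : E (n + 2)) (ev 1) - RR (ev 1) (ev 0)) = 0 := by
  rw [tr_sub, tr_RR, tr_RR]
  simp

lemma opE_mul (n : ℕ) (p q x y p' q' x' y' : ℝ) : opE n p q x y * opE n p' q' x' y' =
    opE n (p * p') (p * q' + q * p' + q * q' + x * x' + y * y')
      (p * x' + x * p' + q * x' + x * q')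
      (p * y' + y * p' + q * y' + y * q') +
      (y * x' - x * y') • (RR (ev 0) (ev 1) - RR (ev 1) (ev 0)) := by
  refine op_mul ?_ ?_ ?_ ?_ _ _ _ _ _ _ _ _ <;> rw [inner_ev] <;> simp

lemma opE_one (n : ℕ) : opE n 1 0 0 0 = 1 := by
  ext x i
  simp [opE, op]

/-- `√(1 + t²)`. -/
noncomputable def rr (t : ℝ) : ℝ := √(1 + t ^ 2)

/-- `√2 arctan t`. -/
noncomputable def th (t : ℝ) : ℝ := √2 * Real.arctan t

lemma rr_pos (t : ℝ) : 0 < rr t := Real.sqrt_pos.2 (by positivity)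

lemma rr_sq (t : ℝ) : rr t ^ 2 = 1 + t ^ 2 := Real.sq_sqrt (by positivity)

lemma hasDerivAt_rr (t : ℝ) : HasDerivAt rr (t / rr t) t := by
  have h1 : HasDerivAt (fun t : ℝ => 1 + t ^ 2) (2 * t) t := by
    simpa using ((hasDerivAt_id t).fun_pow 2).const_add 1
  have h2 := h1.sqrt (by positivity)
  refine h2.congr_deriv ?_
  have := rr_pos t
  unfold rr at *
  field_simp

lemma hasDerivAt_th (t : ℝ) : HasDerivAt th (√2 / rr t ^ 2) t := by
  have := (Real.hasDerivAt_arctan t).const_mul √2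
  refine this.congr_deriv ?_
  rw [rr_sq]
  ring

lemma hasDerivAt_co (t : ℝ) :
    HasDerivAt (fun t => Real.cos (th t)) (-(Real.sin (th t) * (√2 / rr t ^ 2))) t := by
  refine (hasDerivAt_th t).cos.congr_deriv ?_
  ring

lemma hasDerivAt_si (t : ℝ) :
    HasDerivAt (fun t => Real.sin (th t)) (Real.cos (th t) * (√2 / rr t ^ 2)) t :=
  (hasDerivAt_th t).sin

/-- The explicit affine motion. -/
noncomputable def MM (n : ℕ) (t : ℝ) : E (n + 2) →L[ℝ] E (n + 2) :=
  opE n (4 / 5 * rr t) (1 / 5 * rr t) (3 / 5 * (rr t * Real.cos (th t)))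
    (3 / 5 * (rr t * Real.sin (th t)))

/-- Its first derivative. -/
noncomputable def MM1 (n : ℕ) (t : ℝ) : E (n + 2) →L[ℝ] E (n + 2) :=
  opE n (4 / 5 * (t / rr t)) (1 / 5 * (t / rr t))
    (3 / 5 * ((t * Real.cos (th t) - √2 * Real.sin (th t)) / rr t))
    (3 / 5 * ((t * Real.sin (th t) + √2 * Real.cos (th t)) / rr t))

/-- Its second derivative. -/
noncomputable def MM2 (n : ℕ) (t : ℝ) : E (n + 2) →L[ℝ] E (n + 2) :=
  opE n (4 / 5 * (rr t ^ 3)⁻¹) (1 / 5 * (rr t ^ 3)⁻¹)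
    (-(3 / 5 * (Real.cos (th t) * (rr t ^ 3)⁻¹))) (-(3 / 5 * (Real.sin (th t) * (rr t ^ 3)⁻¹)))

/-- Its inverse. -/
noncomputable def WW (n : ℕ) (t : ℝ) : E (n + 2) →L[ℝ] E (n + 2) :=
  opE n (5 / 4 * (rr t)⁻¹) (5 / 16 * (rr t)⁻¹) (-(15 / 16 * (Real.cos (th t) * (rr t)⁻¹)))
    (-(15 / 16 * (Real.sin (th t) * (rr t)⁻¹)))

/-- Its determinant. -/
noncomputable def DD (n : ℕ) (t : ℝ) : ℝ := (4 / 5 * rr t) ^ (n + 2)

lemma contDiff_rr : ContDiff ℝ ∞ rr := by
  unfold rr
  exact ContDiff.sqrt (by fun_prop) fun t => by positivity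

lemma contDiff_th : ContDiff ℝ ∞ th := by
  unfold th
  exact contDiff_const.mul Real.contDiff_arctan

lemma contDiff_rr_inv : ContDiff ℝ ∞ fun t => (rr t)⁻¹ :=
  contDiff_rr.inv fun t => (rr_pos t).ne'

lemma opE_eq_one {n : ℕ} {p q x y k : ℝ} (hp : p = 1) (hq : q = 0) (hx : x = 0) (hy : y = 0)
    (hk : k = 0) : opE n p q x y + k • (RR (ev 0 : E (n + 2)) (ev 1) - RR (ev 1) (ev 0)) = 1 := by
  rw [hp, hq, hx, hy, hk, opE_one, zero_smul, add_zero]

theorem explicit (n : ℕ) :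
    AffineData (n + 2) (1 + 2 / (n + 2 : ℝ)) (256 / 625) (MM n) (MM1 n) (MM2 n) (WW n) (DD n) where
  hM t := by
    have hr := rr_pos t
    have h1 := hasDerivAt_rr t
    have hs := rr_sq t
    refine (hasDerivAt_op (ev 0) (ev 1) (h1.const_mul (4 / 5)) (h1.const_mul (1 / 5))
      ((h1.fun_mul (hasDerivAt_co t)).const_mul (3 / 5))
      ((h1.fun_mul (hasDerivAt_si t)).const_mul (3 / 5))).congr_deriv ?_
    unfold MM1 opE
    congr 1 <;> field_simp
    ring
  hM1 t := by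
    have hr := rr_pos t
    have hr1 := hasDerivAt_rr t
    have hs := rr_sq t
    have h2 : (√2 : ℝ) ^ 2 = 2 := Real.sq_sqrt (by norm_num)
    have h1 : HasDerivAt (fun t => t / rr t) ((rr t ^ 3)⁻¹) t := by
      refine ((hasDerivAt_id t).fun_div hr1 hr.ne').congr_deriv ?_
      simp only [id_eq]
      field_simp
      linear_combination hs
    have h3 := (((hasDerivAt_id t).fun_mul (hasDerivAt_co t)).fun_sub
      ((hasDerivAt_si t).const_mul √2)).fun_div hr1 hr.ne'
    have h4 := (((hasDerivAt_id t).fun_mul (hasDerivAt_si t)).fun_add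
      ((hasDerivAt_co t).const_mul √2)).fun_div hr1 hr.ne'
    refine (hasDerivAt_op (ev 0) (ev 1) (h1.const_mul (4 / 5)) (h1.const_mul (1 / 5))
      (h3.const_mul (3 / 5)) (h4.const_mul (3 / 5))).congr_deriv ?_
    unfold MM2 opE
    congr 1
    · simp only [id_eq]
      field_simp
      linear_combination (Real.cos (th t)) * hs - (Real.cos (th t)) * h2
    · simp only [id_eq]
      field_simp
      linear_combination (Real.sin (th t)) * hs - (Real.sin (th t)) * h2
  sM1 := by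
    unfold MM1 opE
    have h1 := contDiff_rr_inv
    have h2 := contDiff_th
    simp only [div_eq_mul_inv]
    refine contDiff_op _ _ ?_ ?_ ?_ ?_ <;> fun_prop
  sW := by
    unfold WW opE
    have h1 := contDiff_rr_inv
    have h2 := contDiff_th
    refine contDiff_op _ _ ?_ ?_ ?_ ?_ <;> fun_prop
  sD := by
    unfold DD
    have h1 := contDiff_rr
    fun_prop
  MW t := by
    have hr := (rr_pos t).ne'
    have hsc := Real.sin_sq_add_cos_sq (th t)
    rw [MM, WW, opE_mul]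
    refine opE_eq_one ?_ ?_ ?_ ?_ ?_
    · field_simp
    · field_simp
      linear_combination (-180) * hsc
    · field_simp
      ring
    · field_simp
      ring
    · field_simp
      ring
  WM t := by
    have hr := (rr_pos t).ne'
    have hsc := Real.sin_sq_add_cos_sq (th t)
    rw [MM, WW, opE_mul]
    refine opE_eq_one ?_ ?_ ?_ ?_ ?_
    · field_simp
    · field_simp
      linear_combination (-180) * hsc
    · field_simp
      ring
    · field_simp
      ring
    · field_simp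
      ring
  D_pos t := by
    have := rr_pos t
    unfold DD
    positivity
  hD t := by
    have hr := rr_pos t
    have hs := rr_sq t
    have h1 := ((hasDerivAt_rr t).const_mul (4 / 5)).fun_pow (n + 2)
    refine h1.congr_deriv ?_
    have hsc := Real.sin_sq_add_cos_sq (th t)
    rw [MM1, WW, opE_mul, tr_add, tr_smul, tr_skew, tr_opE, DD, mul_zero, add_zero,
      show n + 2 - 1 = n + 1 by omega, pow_succ (4 / 5 * rr t) (n + 1)]
    push_cast
    generalize (4 / 5 * rr t) ^ (n + 1) = z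
    field_simp
    linear_combination (360 * z * t) * hsc
  mom t := by
    have hr := rr_pos t
    rw [WW, opE, adj_op, smul_op]
    have h1 : 1 - (1 + 2 / (n + 2 : ℝ)) = -(2 / (n + 2 : ℝ)) := by ring
    have h2 : DD n t ^ (1 - (1 + 2 / (n + 2 : ℝ))) = ((4 / 5 * rr t) ^ 2)⁻¹ := by
      rw [h1, DD, ← Real.rpow_natCast, ← Real.rpow_mul (by positivity)]
      push_cast
      have h3 : ((n : ℝ) + 2) * -(2 / (n + 2 : ℝ)) = -2 := by field_simp
      rw [h3, Real.rpow_neg (by positivity)]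
      norm_num
    rw [h2, MM2, opE]
    congr 1 <;> field_simp <;> norm_num <;> ring

lemma smul_image_Om {d : ℕ} {γ δ : ℝ} {M M1 M2 W : ℝ → E d →L[ℝ] E d} {D : ℝ → ℝ}
    (h : AffineData d γ δ M M1 M2 W D) (t : ℝ) :
    (fun x : E d => t⁻¹ • x) '' Om W t = (t⁻¹ • M t : E d →L[ℝ] E d) '' ball 0 1 := by
  ext z
  constructor
  · rintro ⟨x, hx, rfl⟩
    refine ⟨W t x, ?_, ?_⟩
    · rw [mem_ball_zero_iff]; exact mem_Om.1 hx
    · simp [h.M_W]
  · rintro ⟨y, hy, rfl⟩
    refine ⟨M t y, ?_, ?_⟩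
    · rw [mem_Om, h.W_M]; exact mem_ball_zero_iff.1 hy
    · simp

lemma neg_image_ball {d : ℕ} (L : E d →L[ℝ] E d) :
    (-L : E d →L[ℝ] E d) '' ball 0 1 = L '' ball 0 1 := by
  ext z
  constructor
  · rintro ⟨y, hy, rfl⟩
    exact ⟨-y, by simpa using hy, by simp⟩
  · rintro ⟨y, hy, rfl⟩
    exact ⟨-y, by simpa using hy, by simp⟩

lemma tendsto_rr_div_atTop : Tendsto (fun t => rr t / t) atTop (𝓝 1) := by
  have h1 : Tendsto (fun t : ℝ => √((t ^ 2)⁻¹ + 1)) atTop (𝓝 (√(0 + 1))) := by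
    refine (Real.continuous_sqrt.tendsto _).comp (Tendsto.add_const 1 ?_)
    exact tendsto_inv_atTop_zero.comp (tendsto_pow_atTop two_ne_zero)
  rw [zero_add, Real.sqrt_one] at h1
  refine h1.congr' ?_
  filter_upwards [eventually_gt_atTop 0] with t ht
  rw [rr, eq_div_iff ht.ne']
  nth_rewrite 2 [← Real.sqrt_sq ht.le]
  rw [← Real.sqrt_mul (by positivity)]
  congr 1
  field_simp

lemma tendsto_rr_div_atBot : Tendsto (fun t => rr t / t) atBot (𝓝 (-1)) := by
  have h1 := (tendsto_rr_div_atTop.comp tendsto_neg_atBot_atTop).neg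
  refine h1.congr fun t => ?_
  simp only [Function.comp, rr, neg_sq]
  rw [div_neg, neg_neg]

/-- The angle `π / √2`. -/
noncomputable def thInf : ℝ := √2 * (Real.pi / 2)

lemma tendsto_th_atTop : Tendsto th atTop (𝓝 thInf) := by
  unfold th thInf
  exact (tendsto_nhds_of_tendsto_nhdsWithin Real.tendsto_arctan_atTop).const_mul _

lemma tendsto_th_atBot : Tendsto th atBot (𝓝 (-thInf)) := by
  unfold th thInf
  have := (tendsto_nhds_of_tendsto_nhdsWithin Real.tendsto_arctan_atBot).const_mul √2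
  rw [mul_neg] at this
  simpa [neg_div] using this

lemma sin_thInf_pos : 0 < Real.sin thInf := by
  have h2 : √2 < 2 := by
    rw [Real.sqrt_lt' (by norm_num)]; norm_num
  have h0 : 0 < √2 := by positivity
  have hpi := Real.pi_pos
  apply Real.sin_pos_of_pos_of_lt_pi
  · unfold thInf; positivity
  · unfold thInf; nlinarith

/-- The linear map giving the limit shape at `+∞` (`s = 1`) and `-∞` (`s = -1`). -/
noncomputable def LL (n : ℕ) (s : ℝ) : E (n + 2) →L[ℝ] E (n + 2) :=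
  opE n (4 / 5) (1 / 5) (3 / 5 * Real.cos thInf) (3 / 5 * (s * Real.sin thInf))

lemma inv_smul_MM (n : ℕ) (t : ℝ) : t⁻¹ • MM n t = opE n (4 / 5 * (rr t / t))
    (1 / 5 * (rr t / t)) (3 / 5 * (rr t / t * Real.cos (th t)))
    (3 / 5 * (rr t / t * Real.sin (th t))) := by
  rw [MM, opE, smul_op, opE]
  congr 1 <;> ring

lemma tendsto_atTop_MM (n : ℕ) : Tendsto (fun t => t⁻¹ • MM n t) atTop (𝓝 (LL n 1)) := by
  simp_rw [inv_smul_MM]
  have h1 := tendsto_rr_div_atTop
  have hc := (Real.continuous_cos.tendsto _).comp tendsto_th_atTop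
  have hs := (Real.continuous_sin.tendsto _).comp tendsto_th_atTop
  have := tendsto_op (ev 0 : E (n + 2)) (ev 1) (h1.const_mul (4 / 5)) (h1.const_mul (1 / 5))
    ((h1.mul hc).const_mul (3 / 5)) ((h1.mul hs).const_mul (3 / 5))
  have e : LL n 1 = op (ev 0 : E (n + 2)) (ev 1) (4 / 5 * 1) (1 / 5 * 1)
      (3 / 5 * (1 * Real.cos thInf)) (3 / 5 * (1 * Real.sin thInf)) := by
    rw [LL, opE]; congr 1 <;> ring
  rw [e]
  exact this

lemma tendsto_atBot_MM (n : ℕ) : Tendsto (fun t => t⁻¹ • MM n t) atBot (𝓝 (-LL n (-1))) := by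
  simp_rw [inv_smul_MM]
  have h1 := tendsto_rr_div_atBot
  have hc := (Real.continuous_cos.tendsto _).comp tendsto_th_atBot
  have hs := (Real.continuous_sin.tendsto _).comp tendsto_th_atBot
  rw [Real.cos_neg] at hc
  rw [Real.sin_neg] at hs
  have := tendsto_op (ev 0 : E (n + 2)) (ev 1) (h1.const_mul (4 / 5)) (h1.const_mul (1 / 5))
    ((h1.mul hc).const_mul (3 / 5)) ((h1.mul hs).const_mul (3 / 5))
  have e : -LL n (-1) = op (ev 0 : E (n + 2)) (ev 1) (4 / 5 * -1) (1 / 5 * -1)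
      (3 / 5 * (-1 * Real.cos thInf)) (3 / 5 * (-1 * -Real.sin thInf)) := by
    rw [LL, opE, ← neg_one_smul ℝ, smul_op]; congr 1 <;> ring
  rw [e]
  exact this

lemma norm_sq_LL (n : ℕ) (s : ℝ) : ‖LL n s (ev 0 + ev 1)‖ ^ 2 =
    2 * (1 + 9 / 25 * (Real.cos thInf ^ 2 + (s * Real.sin thInf) ^ 2)) +
      12 / 5 * (s * Real.sin thInf) := by
  have h : LL n s (ev 0 + ev 1) = (1 + 3 / 5 * Real.cos thInf + 3 / 5 * (s * Real.sin thInf)) •
      (ev 0 : E (n + 2)) + (1 - 3 / 5 * Real.cos thInf + 3 / 5 * (s * Real.sin thInf)) •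
      (ev 1 : E (n + 2)) := by
    simp only [LL, opE, op, _root_.add_apply, _root_.smul_apply, _root_.sub_apply, RR_apply,
      map_add, inner_ev, one_apply_eq_self]
    simp
    module
  rw [h, norm_add_sq_real, norm_smul, norm_smul, inner_smul_left, inner_smul_right, inner_ev]
  have e : ∀ i : Fin (n + 2), ‖(ev i : E (n + 2))‖ = 1 := fun i => by simp [ev]
  rw [e, e]
  simp only [Real.norm_eq_abs, mul_one, sq_abs]
  simp
  ring

/-- **Answer to Q1: no.** For every dimension `d ≥ 2` and every `A > 0`, with `γ = 1 + 2/d`, there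
is a shock-free eternal flow in vacuum with physical singularity (with smooth front) such that
`Ω(t)` behaves asymptotically as `t 𝒪₊` as `t → +∞` and as `t 𝒪₋` as `t → -∞`, where `𝒪₊` and
`𝒪₋` are ellipsoids with different closures; so no bounded set `𝒪` serves at both ends. -/
theorem result (d : ℕ) (hd : 2 ≤ d) (A : ℝ) (hA : 0 < A) :
    ∃ (Ω : ℝ → Set (E d)) (ρ : ℝ → E d → ℝ) (u : ℝ → E d → E d),
      EternalFlow d A (1 + 2 / d) Ω ρ u ∧
      (∃ L₁ L₂ : E d →L[ℝ] E d, BehavesAs Ω (L₁ '' ball 0 1) atTop ∧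
        BehavesAs Ω (L₂ '' ball 0 1) atBot ∧
        closure (L₁ '' ball 0 1) ≠ closure (L₂ '' ball 0 1)) ∧
      ¬ ∃ O : Set (E d), BehavesAs Ω O atTop ∧ BehavesAs Ω O atBot := by
  obtain ⟨n, rfl⟩ : ∃ n, d = n + 2 := ⟨d - 2, by omega⟩
  have hdata := explicit n
  have hγ : (1 : ℝ) < 1 + 2 / (n + 2 : ℝ) := by
    have : (0 : ℝ) < 2 / (n + 2 : ℝ) := by positivity
    linarith
  have hflow := hdata.eternalFlow hγ hA (by norm_num)
  have h1 : BehavesAs (Om (WW n)) (LL n 1 '' ball 0 1) atTop :=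
    behavesAs_of_tendsto (tendsto_atTop_MM n) (Eventually.of_forall fun t => smul_image_Om hdata t)
  have h2 : BehavesAs (Om (WW n)) (LL n (-1) '' ball 0 1) atBot := by
    have := behavesAs_of_tendsto (tendsto_atBot_MM n)
      (Eventually.of_forall fun t => smul_image_Om hdata t)
    rwa [neg_image_ball] at this
  have hne : closure (LL n 1 '' ball 0 1) ≠ closure (LL n (-1) '' ball 0 1) := by
    intro h
    have h3 := adjoint_norm_le h.le (ev 0 + ev 1)
    have ha : ∀ s, ContinuousLinearMap.adjoint (LL n s) = LL n s := fun s => by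
      rw [LL, opE]; exact adj_op _ _ _ _ _ _
    rw [ha, ha] at h3
    have h4 : ‖LL n 1 (ev 0 + ev 1)‖ ^ 2 ≤ ‖LL n (-1) (ev 0 + ev 1)‖ ^ 2 := by gcongr
    rw [norm_sq_LL, norm_sq_LL] at h4
    have := sin_thInf_pos
    nlinarith
  refine ⟨Om (WW n), rho A (1 + 2 / (n + 2 : ℝ)) (256 / 625) (WW n) (DD n), vel (MM1 n) (WW n),
    ?_, ⟨LL n 1, LL n (-1), h1, h2, hne⟩, ?_⟩
  · have e : (1 : ℝ) + 2 / ((n + 2 : ℕ) : ℝ) = 1 + 2 / (n + 2 : ℝ) := by push_cast; ring
    rw [e]
    exact hflow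
  · rintro ⟨O, hO1, hO2⟩
    exact hne ((h1.unique hO1).trans (h2.unique hO2).symm)

end Explicit

end Pool.Agent.Results.MP_f907ca_an.TwoShapes
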